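import Pool.Agent.X83.DM.Stm

set_option autoImplicit false

namespace Pool.Agent.X104.DM

open MeasureTheory Set Filter Topology Real Pool.Agent.X83.DM

theorem t : S_LOW := by
  intro hDEC d a y g c K hc ha hK hG v
  -- continuity and decay
  have hgc : ∀ i, Continuous (g i) := fun i =>
    continuous_iff_continuousAt.mpr fun t => ((hK i).dg t).continuousAt
  set w : ℝ → EuclideanSpace ℝ (Fin d) := vec g v with hw
  have hwc : Continuous w := by
    refine (PiLp.continuous_toLp 2 _).comp (continuous_pi fun i => (hgc i).mul continuous_const)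
  have hdec : ∀ i, ∃ M η : ℝ, 0 < η ∧ 0 ≤ M ∧ ∀ t : ℝ, 0 ≤ t → |g i t| ≤ M * exp (-(η * t)) := by
    intro i
    obtain ⟨M, η, hη, hM, h⟩ := hDEC (a i) c c (ha i) hc le_rfl
    exact ⟨M, η, hη, hM, fun t ht => (h c ⟨le_rfl, le_rfl⟩ (y i) (g i) (hK i) t ht).2⟩
  have hgi : ∀ i, IntegrableOn (g i) (Ioi 0) := by
    intro i
    obtain ⟨M, η, hη, hM, h⟩ := hdec i
    have h1 : IntegrableOn (fun t => M * exp (-(η * t))) (Ioi 0) := by
      have h2 := (exp_neg_integrableOn_Ioi 0 hη).const_mul M
      simp only [neg_mul] at h2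
      exact h2
    refine h1.mono' (hgc i).aestronglyMeasurable ?_
    filter_upwards [ae_restrict_mem measurableSet_Ioi] with t ht
    rw [Real.norm_eq_abs]
    exact h t (le_of_lt ht)
  have hwi : IntegrableOn w (Ioi 0) := by
    have h1 : ∀ i, IntegrableOn (fun r => |g i r * v i|) (Ioi 0) := fun i =>
      ((hgi i).mul_const (v i)).abs
    have h2 : IntegrableOn (fun r => ∑ i, |g i r * v i|) (Ioi 0) :=
      integrable_finsetSum _ fun i _ => h1 i
    refine h2.mono' hwc.aestronglyMeasurable (ae_of_all _ fun r => ?_)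
    rw [EuclideanSpace.norm_eq]
    refine Real.sqrt_le_iff.mpr ⟨Finset.sum_nonneg fun i _ => abs_nonneg _, ?_⟩
    have h3 := Finset.sum_sq_le_sq_sum_of_nonneg (s := Finset.univ) (f := fun i => |g i r * v i|)
      (fun i _ => abs_nonneg _)
    exact h3
  have hwn : IntegrableOn (fun r => ‖w r‖) (Ioi 0) := hwi.norm
  have hPhi : Phi g v = ∫ r in Ioi (0 : ℝ), ‖w r‖ := rfl
  -- the direction
  set e : ℝ → EuclideanSpace ℝ (Fin d) := fun r => ‖w r‖⁻¹ • w r with he
  have hem : Measurable e := (hwc.norm.measurable.inv).smul hwc.measurable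
  have hen : ∀ r, ‖e r‖ ≤ 1 := by
    intro r
    rw [he]; simp only []
    rw [norm_smul, norm_inv, norm_norm]
    exact inv_mul_le_one
  have hei : ∀ r, inner ℝ (w r) (e r) = ‖w r‖ := by
    intro r
    rw [he]; simp only []
    rw [inner_smul_right, real_inner_self_eq_norm_sq]
    by_cases h : ‖w r‖ = 0
    · rw [h]; simp
    · field_simp
  set J : ℝ → ℝ := fun T => ∫ r in (0 : ℝ)..T, ‖w r‖ with hJ
  have hJt : Tendsto J atTop (𝓝 (Phi g v)) :=
    intervalIntegral_tendsto_integral_Ioi 0 hwn tendsto_id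
  have hJle : ∀ T, 0 ≤ T → J T ≤ Phi g v := by
    intro T hT
    rw [hJ, hPhi]; simp only []
    rw [intervalIntegral.integral_of_le hT]
    exact setIntegral_mono_set hwn (ae_of_all _ fun r => norm_nonneg _)
      (Ioc_subset_Ioi_self.eventuallyLE)
  have hwii : ∀ p q : ℝ, IntervalIntegrable (fun r => ‖w r‖) volume p q :=
    fun p q => hwc.norm.intervalIntegrable p q
  have key : ∀ T : ℝ, 0 < T → ∀ ε : ℝ, 0 < ε →
      2 * J T - Phi g v ≤ ‖(WithLp.toLp 2 v : EuclideanSpace ℝ (Fin d))‖ * (K + ε) := by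
    intro T hT ε hε
    set f : ℝ → EuclideanSpace ℝ (Fin d) := fun t => e (T * (1 - Int.fract (t / T))) with hf
    have hfm : Measurable f := by
      refine hem.comp ?_
      exact (measurable_const.sub (measurable_fract.comp (measurable_id.div_const T))).const_mul T
    have hfn : ∀ t, ‖f t‖ ≤ 1 := fun t => hen _
    have hfl : LocallyIntegrable f := by
      refine (locallyIntegrable_const (1 : ℝ)).mono hfm.aestronglyMeasurable
        (ae_of_all _ fun t => ?_)
      rw [norm_one]; exact hfn t
    have hev := hG 0 0 f 1 hfl (Eventually.of_forall hfn) ε hε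
    have hseq : Tendsto (fun n : ℕ => (n : ℝ) * T) atTop atTop :=
      tendsto_natCast_atTop_atTop.atTop_mul_const hT
    obtain ⟨n, hn, hn1⟩ := ((hseq.eventually hev).and (eventually_ge_atTop 1)).exists
    have hn1' : (1 : ℝ) ≤ n := by exact_mod_cast hn1
    set S : ℝ := n * T with hS
    have hTS : T ≤ S := by rw [hS]; nlinarith
    have hfS : ∀ r ∈ Ioc (0 : ℝ) T, f (S - r) = e r := by
      intro r hr
      rw [hf]; simp only []
      congr 1
      have h1 : (S - r) / T = ((n : ℤ) : ℝ) + (-(r / T)) := by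
        rw [hS]; push_cast; field_simp; ring
      rw [h1, Int.fract_intCast_add]
      have h2 : Int.fract (-(r / T)) = 1 - r / T := by
        rw [Int.fract_eq_iff]
        refine ⟨?_, ?_, -1, ?_⟩
        · rw [sub_nonneg, div_le_one hT]; exact hr.2
        · have : 0 < r / T := div_pos hr.1 hT
          linarith
        · push_cast; ring
      rw [h2]; field_simp; ring
    set h : ℝ → EuclideanSpace ℝ (Fin d) := fun r => f (S - r) with hh
    have hhm : Measurable h := hfm.comp (measurable_const.sub measurable_id)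
    have hhn : ∀ r, ‖h r‖ ≤ 1 := fun r => hfn _
    have hhi : ∀ i (p q : ℝ), IntervalIntegrable (fun r => g i r * h r i) volume p q := by
      intro i p q
      have h1 : Measurable fun r => g i r * h r i :=
        (hgc i).measurable.mul ((EuclideanSpace.proj (𝕜 := ℝ) i).continuous.measurable.comp hhm)
      refine ((hgc i).intervalIntegrable p q).mono_fun h1.aestronglyMeasurable.restrict
        (ae_of_all _ fun r => ?_)
      show ‖g i r * h r i‖ ≤ ‖g i r‖
      rw [norm_mul]
      have h2 : ‖h r i‖ ≤ ‖h r‖ := PiLp.norm_apply_le (h r) i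
      have h3 : ‖h r i‖ ≤ 1 := h2.trans (hhn r)
      nlinarith [norm_nonneg (g i r)]
    set U : EuclideanSpace ℝ (Fin d) := WithLp.toLp 2 fun i => ∫ s in (0 : ℝ)..S, g i (S - s) * f s i
      with hU
    have hUn : ‖U‖ ≤ K * 1 + ε := by
      have h1 : U = WithLp.toLp 2 fun i => -(a i * y i S * (0 : Fin d → ℝ) i) +
          g i S * (0 : Fin d → ℝ) i + ∫ s in (0 : ℝ)..S, g i (S - s) * f s i := by
        rw [hU]
        congr 1
        funext i
        simp
      rw [h1]
      exact hn
    have hUi : ∀ i, U i = ∫ r in (0 : ℝ)..S, g i r * h r i := by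
      intro i
      have h1 := intervalIntegral.integral_comp_sub_left (a := 0) (b := S)
        (fun r => g i r * h r i) S
      rw [sub_self, sub_zero] at h1
      rw [← h1]
      show ∫ s in (0 : ℝ)..S, g i (S - s) * f s i = _
      refine intervalIntegral.integral_congr fun s _ => ?_
      show g i (S - s) * f s i = g i (S - s) * f (S - (S - s)) i
      rw [sub_sub_cancel]
    have hinner : inner ℝ (WithLp.toLp 2 v : EuclideanSpace ℝ (Fin d)) U =
        ∫ r in (0 : ℝ)..S, inner ℝ (w r) (h r) := by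
      have h1 : ∀ r, inner ℝ (w r) (h r) = ∑ i, v i * (g i r * h r i) := by
        intro r
        rw [PiLp.inner_apply]
        refine Finset.sum_congr rfl fun i _ => ?_
        show h r i * (g i r * v i) = _
        ring
      simp_rw [h1]
      rw [intervalIntegral.integral_finsetSum fun i _ => (hhi i 0 S).const_mul (v i),
        PiLp.inner_apply]
      refine Finset.sum_congr rfl fun i _ => ?_
      rw [intervalIntegral.integral_const_mul, ← hUi]
      show U i * v i = v i * U i
      ring
    have hwhi : ∀ p q : ℝ, IntervalIntegrable (fun r => inner ℝ (w r) (h r)) volume p q := by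
      intro p q
      have h1 : Measurable fun r => inner ℝ (w r) (h r) := hwc.measurable.inner hhm
      refine (hwii p q).mono_fun h1.aestronglyMeasurable.restrict (ae_of_all _ fun r => ?_)
      show ‖inner ℝ (w r) (h r)‖ ≤ ‖‖w r‖‖
      have h2 := abs_real_inner_le_norm (w r) (h r)
      have h3 : ‖w r‖ * ‖h r‖ ≤ ‖w r‖ := by nlinarith [norm_nonneg (w r), hhn r]
      rw [Real.norm_eq_abs, norm_norm]
      exact h2.trans h3
    have hsplit : ∫ r in (0 : ℝ)..S, inner ℝ (w r) (h r) =
        (∫ r in (0 : ℝ)..T, inner ℝ (w r) (h r)) + ∫ r in T..S, inner ℝ (w r) (h r) :=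
      (intervalIntegral.integral_add_adjacent_intervals (hwhi 0 T) (hwhi T S)).symm
    have hfirst : ∫ r in (0 : ℝ)..T, inner ℝ (w r) (h r) = J T := by
      rw [hJ]; simp only []
      rw [intervalIntegral.integral_of_le hT.le, intervalIntegral.integral_of_le hT.le]
      refine setIntegral_congr_fun measurableSet_Ioc fun r hr => ?_
      show inner ℝ (w r) (h r) = ‖w r‖
      rw [← hei r, hh]; simp only []; rw [hfS r hr]
    have hsecond : -(Phi g v - J T) ≤ ∫ r in T..S, inner ℝ (w r) (h r) := by
      have h1 : ∫ r in T..S, -‖w r‖ ≤ ∫ r in T..S, inner ℝ (w r) (h r) := by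
        refine intervalIntegral.integral_mono_on hTS (hwii T S).neg (hwhi T S) fun r _ => ?_
        have h2 := abs_real_inner_le_norm (w r) (h r)
        have h3 : ‖w r‖ * ‖h r‖ ≤ ‖w r‖ := by nlinarith [norm_nonneg (w r), hhn r]
        linarith [neg_abs_le (inner ℝ (w r) (h r))]
      rw [intervalIntegral.integral_neg] at h1
      have h4 : J S = J T + ∫ r in T..S, ‖w r‖ :=
        (intervalIntegral.integral_add_adjacent_intervals (hwii 0 T) (hwii T S)).symm
      have h5 := hJle S (hT.le.trans hTS)
      linarith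
    have hCS : inner ℝ (WithLp.toLp 2 v : EuclideanSpace ℝ (Fin d)) U ≤
        ‖(WithLp.toLp 2 v : EuclideanSpace ℝ (Fin d))‖ * ‖U‖ := real_inner_le_norm _ _
    have hfin : ‖(WithLp.toLp 2 v : EuclideanSpace ℝ (Fin d))‖ * ‖U‖ ≤
        ‖(WithLp.toLp 2 v : EuclideanSpace ℝ (Fin d))‖ * (K + ε) := by
      rw [mul_one] at hUn
      gcongr
    rw [hinner, hsplit, hfirst] at hCS
    linarith
  have key2 : ∀ ε : ℝ, 0 < ε →
      Phi g v ≤ ‖(WithLp.toLp 2 v : EuclideanSpace ℝ (Fin d))‖ * (K + ε) := by
    intro ε hε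
    have h1 : Tendsto (fun T => 2 * J T - Phi g v) atTop (𝓝 (2 * Phi g v - Phi g v)) :=
      (hJt.const_mul 2).sub_const _
    have h2 := le_of_tendsto h1 ((eventually_gt_atTop 0).mono fun T hT => key T hT ε hε)
    linarith
  set V : ℝ := ‖(WithLp.toLp 2 v : EuclideanSpace ℝ (Fin d))‖ with hV
  have hV0 : 0 ≤ V := norm_nonneg _
  refine le_of_forall_pos_le_add fun δ hδ => ?_
  have h1 := key2 (δ / (V + 1)) (by positivity)
  have h2 : V * (δ / (V + 1)) ≤ δ := by
    rw [mul_div_assoc', div_le_iff₀ (by positivity)]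
    nlinarith
  nlinarith

end Pool.Agent.X104.DM
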